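import Pool.Agent.BLP.StmtsF

/-!
# Squad BLP, row F_FMD: the modulus of the limit, almost surely
-/

namespace Pool.Agent.BLP.H55

open MeasureTheory ProbabilityTheory Filter Topology Finset
open scoped ENNReal

noncomputable section

theorem f_fmd : FmdStmt := by
  intro pab one exi spk pnt qua fmo fat X _ μ B Φ φ hB hLoc hφ hconv
  have fmo' := fmo pab one exi spk pnt qua
  have key : ∀ (q : ℚ) (m : ℤ) (R : ℕ), ∀ᵐ x ∂μ, 0 < q → ∃ M : ℤ, m ≤ M ∧
      ∀ s t : ℚ, -(R : ℝ) ≤ s → s ≤ t → (t : ℝ) ≤ R →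
        Φ q m t x - Φ q m s x ≤ L (B x) m s M t := by
    intro q m R
    by_cases hq : 0 < q
    swap
    · exact Filter.Eventually.of_forall fun x h => absurd h hq
    rw [ae_iff]
    -- it is enough to bound the measure
    refine le_antisymm ?_ zero_le
    refine ENNReal.le_of_forall_pos_le_add fun δ hδ _ => ?_
    rw [zero_add]
    have hδ' : (0 : ℝ) < (δ : ℝ) := by exact_mod_cast hδ
    obtain ⟨N, hN⟩ := hLoc (q / 2) q (2 * q) (by positivity) (by linarith) (by linarith) m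
      (-(R : ℚ)) δ hδ'
    obtain ⟨M, hM⟩ : ∃ M : ℕ, M = max N (max m.toNat ⌈2 * (R : ℝ) / q⌉₊) := ⟨_, rfl⟩
    have hMN : N ≤ M := by rw [hM]; exact le_max_left _ _
    have hMm : m ≤ (M : ℤ) := by
      have h1 : m.toNat ≤ M := by
        rw [hM]
        exact le_trans (le_max_left _ _) (le_max_right _ _)
      omega
    have hMR : (R : ℝ) ≤ M * ((q / 2 : ℚ) : ℝ) := by
      have h1 : ⌈2 * (R : ℝ) / q⌉₊ ≤ M := by
        rw [hM]
        exact le_trans (le_max_right _ _) (le_max_right _ _)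
      have h2 : 2 * (R : ℝ) / q ≤ M := le_trans (Nat.le_ceil _) (by exact_mod_cast h1)
      have h3 : (0 : ℝ) < q := by exact_mod_cast hq
      rw [div_le_iff₀ h3] at h2
      push_cast
      linarith
    obtain ⟨n₁, hn₁⟩ := hN M hMN
    let S : ℕ → Set X := fun n' => {x | ¬ ∃ v : ℝ, (M : ℝ) * ((q / 2 : ℚ) : ℝ) ≤ v ∧
      v ≤ (M : ℝ) * ((2 * q : ℚ) : ℝ) ∧ m ≤ (M : ℤ) ∧ ((-(R : ℚ) : ℚ) : ℝ) ≤ v ∧ v ≤ n' * q ∧
        L (B x) m ((-(R : ℚ) : ℚ) : ℝ) n' (n' * q) =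
          L (B x) m ((-(R : ℚ) : ℚ) : ℝ) M v + L (B x) M v n' (n' * q)}
    have hφt : Tendsto φ atTop atTop := hφ.tendsto_atTop
    have hfat : μ {x | ∀ᶠ j in atTop, x ∈ S (φ j)} ≤ ENNReal.ofReal δ := by
      refine fat X μ (fun j => S (φ j)) (ENNReal.ofReal δ) ?_
      refine Filter.Eventually.frequently ?_
      filter_upwards [hφt.eventually_ge_atTop n₁] with j hj
      exact hn₁ (φ j) hj
    have hle : μ {x | ¬ (0 < q → ∃ M : ℤ, m ≤ M ∧ ∀ s t : ℚ, -(R : ℝ) ≤ s → s ≤ t →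
        (t : ℝ) ≤ R → Φ q m t x - Φ q m s x ≤ L (B x) m s M t)} ≤
        μ {x | ∀ᶠ j in atTop, x ∈ S (φ j)} := by
      refine measure_mono_ae ?_
      filter_upwards [hconv] with x hx hbad
      by_contra hnot
      have hfr : ∃ᶠ j in atTop, x ∉ S (φ j) := by
        intro h
        apply hnot
        show ∀ᶠ j in atTop, x ∈ S (φ j)
        filter_upwards [h] with j hj
        exact not_not.1 hj
      apply hbad
      intro _
      refine ⟨M, hMm, fun s t hs hst ht => ?_⟩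
      have h1 : Tendsto (fun j : ℕ => L (B x) m s (φ j) (φ j * q) -
          L (B x) m t (φ j) (φ j * q)) atTop (𝓝 (Φ q m t x - Φ q m s x)) := by
        have h2 := (hx q hq m t).sub (hx q hq m s)
        refine h2.congr fun j => ?_
        ring
      refine le_of_tendsto_of_frequently h1 ?_
      refine (hfr.and_eventually (hφt.eventually_ge_atTop M)).mono ?_
      rintro j ⟨hj, hjM⟩
      have h3 : ∃ v : ℝ, (M : ℝ) * ((q / 2 : ℚ) : ℝ) ≤ v ∧
        v ≤ (M : ℝ) * ((2 * q : ℚ) : ℝ) ∧ m ≤ (M : ℤ) ∧ ((-(R : ℚ) : ℚ) : ℝ) ≤ v ∧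
          v ≤ (φ j : ℕ) * q ∧
          L (B x) m ((-(R : ℚ) : ℚ) : ℝ) (φ j : ℕ) ((φ j : ℕ) * q) =
            L (B x) m ((-(R : ℚ) : ℚ) : ℝ) M v + L (B x) M v (φ j : ℕ) ((φ j : ℕ) * q) :=
        not_not.1 hj
      obtain ⟨v, v1, v2, v3, v4, v5, v6⟩ := h3
      have hR : ((-(R : ℚ) : ℚ) : ℝ) = -(R : ℝ) := by push_cast; ring
      rw [hR] at v6
      exact fmo' (B x) (hB.cts x) m M (φ j : ℕ) R v ((φ j : ℕ) * q) hMm (by exact_mod_cast hjM)
        (by positivity) (le_trans hMR v1) v5 v6 s t hs (by exact_mod_cast hst) ht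
    refine le_trans hle (le_trans hfat ?_)
    rw [ENNReal.ofReal_coe_nnreal]
  filter_upwards [ae_all_iff.2 fun q => ae_all_iff.2 fun m => ae_all_iff.2 fun R => key q m R]
    with x hx
  intro q hq m R
  exact hx q m R hq

end

end Pool.Agent.BLP.H55
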